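import Mathlib

namespace Pool.Agent.Results.MP_4bc86c_co.PowerOfTwo

open SimpleGraph

lemma add_self' {k : ℕ} (x : Fin k → ZMod 2) : x + x = 0 := by
  funext i
  exact CharTwo.add_self_eq_zero (x i)

lemma sum_univ_zero (k : ℕ) (hk : 3 ≤ k) : ∑ x : Fin k → ZMod 2, x = 0 := by
  funext i
  rw [Finset.sum_apply]
  obtain ⟨j, hj⟩ : ∃ j : Fin k, j ≠ i := by
    by_cases h : i.1 = 0
    · exact ⟨⟨1, by omega⟩, fun e => by rw [← e] at h; simp at h⟩
    · exact ⟨⟨0, by omega⟩, fun e => h (by rw [← e])⟩
  refine Finset.sum_involution (fun x _ => x + Pi.single j 1) ?_ ?_ (fun _ _ => Finset.mem_univ _) ?_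
  · intro x _
    simp only [Pi.add_apply, Pi.single_eq_of_ne hj.symm, add_zero]
    exact CharTwo.add_self_eq_zero (x i)
  · intro x _ _ h
    have := congrFun h j
    simp at this
  · intro x _
    rw [add_assoc, add_self', add_zero]

/-- the sum of the two ends -/
def col {k : ℕ} : Sym2 (Fin k → ZMod 2) → (Fin k → ZMod 2) :=
  Sym2.lift ⟨fun x y => x + y, fun x y => add_comm x y⟩

lemma walk_sum {k : ℕ} {u v : Fin k → ZMod 2} (w : (⊤ : SimpleGraph (Fin k → ZMod 2)).Walk u v) :
    (w.edges.map col).sum = u + v := by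
  induction w with
  | nil => simp [add_self']
  | @cons a b c h p ih =>
    simp only [Walk.edges_cons, List.map_cons, List.sum_cons, ih]
    show (a + b) + (b + c) = a + c
    rw [add_assoc, ← add_assoc b, add_self', zero_add]

lemma col_ne {k : ℕ} (e : Sym2 (Fin k → ZMod 2))
    (he : e ∈ (⊤ : SimpleGraph (Fin k → ZMod 2)).edgeSet) : col e ≠ 0 := by
  induction e using Sym2.ind with
  | _ x y =>
    intro h
    have h1 : x + y = 0 := h
    have h2 : x ≠ y := by simpa using he
    apply h2
    rw [← add_zero x, ← add_self' y, ← add_assoc, h1, zero_add]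

theorem result (k : ℕ) (hk : 3 ≤ k) :
    ∃ (V C : Type) (_ : Fintype V) (_ : Fintype C) (c : Sym2 V → C),
      Fintype.card V = 2 ^ k ∧ Fintype.card C = 2 ^ k - 1 ∧
      (∀ x y z : V, x ≠ y → x ≠ z → y ≠ z → c s(x, y) ≠ c s(x, z)) ∧
      ∀ (v : V) (w : (⊤ : SimpleGraph V).Walk v v), w.IsCycle → w.length = 2 ^ k - 2 →
        ¬ (w.edges.map c).Nodup := by
  classical
  have hcard : Fintype.card (Fin k → ZMod 2) = 2 ^ k := by simp
  let e0 : {x : Fin k → ZMod 2 // x ≠ 0} := ⟨fun _ => 1, fun h => by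
    have := congrFun h ⟨0, by omega⟩
    simp at this⟩
  let c : Sym2 (Fin k → ZMod 2) → {x : Fin k → ZMod 2 // x ≠ 0} :=
    fun e => if h : col e ≠ 0 then ⟨col e, h⟩ else e0
  have hc : ∀ e ∈ (⊤ : SimpleGraph (Fin k → ZMod 2)).edgeSet, (c e).1 = col e := by
    intro e he
    simp only [c, dif_pos (col_ne e he)]
  refine ⟨Fin k → ZMod 2, {x : Fin k → ZMod 2 // x ≠ 0}, inferInstance, inferInstance, c, hcard,
    ?_, ?_, ?_⟩
  · rw [Fintype.card_subtype_compl, hcard]
    simp
  · intro x y z hxy hxz hyz h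
    have h1 := congrArg Subtype.val h
    rw [hc _ (by simpa using hxy), hc _ (by simpa using hxz)] at h1
    exact hyz (add_left_cancel (show x + y = x + z from h1))
  · intro v w _ hlen hnd
    have h1 : (w.edges.map c).map Subtype.val = w.edges.map col := by
      rw [List.map_map]
      apply List.map_congr_left
      intro e he
      exact hc e (w.edges_subset_edgeSet he)
    have h2 : (w.edges.map col).Nodup := h1 ▸ hnd.map Subtype.val_injective
    have h3 : ∑ x ∈ (w.edges.map col).toFinset, x = 0 := by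
      rw [List.sum_toFinset (fun x => x) h2, List.map_id', walk_sum w, add_self']
    set S := (w.edges.map col).toFinset with hS
    have h4 : S.card = 2 ^ k - 2 := by
      rw [hS, List.toFinset_card_of_nodup h2, List.length_map, Walk.length_edges, hlen]
    have h5 : (0 : Fin k → ZMod 2) ∉ S := by
      rw [hS, List.mem_toFinset, List.mem_map]
      rintro ⟨e, he, h0⟩
      exact col_ne e (w.edges_subset_edgeSet he) h0
    have h8 : 8 ≤ 2 ^ k := le_trans (by norm_num : 8 ≤ 2 ^ 3) (Nat.pow_le_pow_right (by norm_num) hk)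
    have h6 : (insert 0 S)ᶜ.card = 1 := by
      rw [Finset.card_compl, Finset.card_insert_of_notMem h5, h4, hcard]
      omega
    obtain ⟨m, hm⟩ := Finset.card_eq_one.1 h6
    have h7 := Finset.sum_add_sum_compl (insert 0 S) (fun x => x)
    rw [sum_univ_zero k hk, hm, Finset.sum_insert h5, h3, Finset.sum_singleton] at h7
    have h9 : m ∈ (insert 0 S)ᶜ := by rw [hm]; simp
    apply Finset.mem_compl.1 h9
    have : m = 0 := by simpa using h7
    rw [this]
    exact Finset.mem_insert_self _ _

end Pool.Agent.Results.MP_4bc86c_co.PowerOfTwo
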